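import Pool.Agent.X112.HP.Stm
import Pool.Agent.X192.HZ.Hur

/-! Part HUR of project HP (helper112). -/

set_option autoImplicit false

namespace Pool.Agent.X148.HP

open Finset Pool.Agent.X112.HP Pool.Agent.X192.HZ

theorem t_HUR : Pool.Agent.X112.HP.S_HUR := by
  intro n m A hA α x y
  unfold hurwitz
  have hnn : ∀ (w : List (Fin m)) (a b : Fin n), 0 ≤ P A w a b := by
    intro w a b
    exact Pool.Agent.X192.HZ.prod_nonneg A hA w a b
  rw [Matrix.sum_apply, Finset.sum_pos_iff_of_nonneg fun w _ => hnn _ x y]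
  constructor
  · rintro ⟨w, hw, hpos⟩
    rw [Finset.mem_filter] at hw
    exact ⟨List.ofFn w, fun i => by rw [count_ofFn]; exact hw.2 i, hpos⟩
  · rintro ⟨l, hl, hp⟩
    have hN : l.length = ∑ i, α i := by
      rw [length_eq]; exact Finset.sum_congr rfl fun i _ => hl i
    have key : ∃ w : Fin (∑ i, α i) → Fin m, List.ofFn w = l := by
      rw [← hN]
      exact ⟨l.get, List.ofFn_get l⟩
    obtain ⟨w, hw⟩ := key
    refine ⟨w, ?_, ?_⟩
    · rw [Finset.mem_filter]
      refine ⟨Finset.mem_univ _, fun i => ?_⟩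
      rw [← count_ofFn, hw]; exact hl i
    · rw [hw]; exact hp

end Pool.Agent.X148.HP
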